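import Pool.Agent.Run7.h309.ST.Core

/-!
# Subtorsors for products of hypergeometric families: windows
-/

set_option autoImplicit false
set_option linter.unusedSectionVars false

open Matrix Module
open Pool.Agent.Y119.HY (Am Jm cm E Hf Hc QD Jc_skew Jc_det cm_transpose)
open Run7.h893.HO
open Pool.Agent.Run7.h225.HG
open Pool.Agent.Y123.GN Pool.Agent.TH127.PT Pool.Agent.Y113 Pool.Agent.Y123.ST

namespace Run7.h309.ST

section stab

/-- **stability from relations of bounded degree over the rational numbers** -/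
theorem stabH (m D : ℕ) : ∃ d : ℕ, ∀ (r₀ N : ℕ) (s : Fin N → ℕ), r₀ + ∑ q, s q ≤ m →
    ∀ (C₀ : Matrix (Fin r₀) (Fin r₀) ℂ) (Z B : ∀ q, Matrix (Fin (s q)) (Fin (s q)) ℂ), (∀ q, Clf (B q)) →
    (∀ g : ∀ q, (Matrix (Fin (s q)) (Fin (s q)) ℂ)ˣ, (∀ q, g q ∈ GB (B q)) →
      Rl ⊥ d (EG C₀ Z) (EG 1 (fun q => (g q : Matrix (Fin (s q)) (Fin (s q)) ℂ)) * EG C₀ Z)) →
    ∀ K : Subfield ℂ, FiniteDimensional ℚ K → finrank ℚ K ≤ D →
    ∀ T : Set (Matrix (IG (Fin r₀) s) (IG (Fin r₀) s) ℂ), IsSubtorsor K T → EG C₀ Z ∈ T →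
    ∀ g : ∀ q, (Matrix (Fin (s q)) (Fin (s q)) ℂ)ˣ, (∀ q, g q ∈ GB (B q)) →
      ∀ x ∈ T, EG 1 (fun q => (g q : Matrix (Fin (s q)) (Fin (s q)) ℂ)) * x ∈ T := by
  obtain ⟨d, -, hd⟩ := comm_all m D
  refine ⟨d, ?_⟩
  intro r₀ N s hm C₀ Z B hB hRl K hKf hKD T hT hcT g hg
  have hcardm : Fintype.card (IG (Fin r₀) s) ≤ m := by
    rw [card_IG, Fintype.card_fin]
    exact hm
  have hrelG : ∀ g ∈ Ug (GG (Fin r₀) (fun q => GB (B q))), Rl ⊥ d (EG C₀ Z) (g * EG C₀ Z) := by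
    intro g hg
    obtain ⟨g', hg', rfl⟩ := Ug_le _ hg
    exact hRl g' fun i => hg' i (Set.mem_univ i)
  obtain ⟨hcomm, -, -⟩ := hd (IG (Fin r₀) s) hcardm _ (GG (Fin r₀) fun q => GB (B q)) hrelG K hKf hKD T hT hcT
  refine all_blocksG fun q => ?_
  refine hcomm _ ?_
  have h5 : g q ∈ ⁅Ug (GB (B q)), Ug (GB (B q))⁆ := cl_perf (hB q) (hg q)
  have h6 : em (Fin r₀) q (g q) ∈ (⁅Ug (GB (B q)), Ug (GB (B q))⁆ : Subgroup _).map (em (Fin r₀) q) := ⟨g q, h5, rfl⟩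
  rw [Subgroup.map_commutator] at h6
  exact Subgroup.commutator_mono em_Ug em_Ug h6

end stab

section lin

lemma lin_poly {σ : Type} {w : σ → ℂ} {x : ℂ} (hx : x ∈ Submodule.span ℚ (insert 1 (Set.range w))) :
    ∃ L : MvPolynomial σ ℂ, DC 1 (1 : Submodule ℚ ℂ) L ∧ MvPolynomial.aeval w L = x := by
  classical
  have h1 : (1 : ℂ) ∈ (1 : Submodule ℚ ℂ) := Submodule.one_le.1 le_rfl
  induction hx using Submodule.span_induction with
  | mem x hx =>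
    rcases hx with rfl | ⟨i, rfl⟩
    · refine ⟨1, ⟨by rw [MvPolynomial.totalDegree_one]; exact Nat.zero_le _, fun s => ?_⟩, map_one _⟩
      rw [MvPolynomial.coeff_one]
      split_ifs
      · exact h1
      · exact Submodule.zero_mem _
    · refine ⟨MvPolynomial.X i, ⟨(MvPolynomial.totalDegree_X (R := ℂ) i).le, fun s => ?_⟩, MvPolynomial.aeval_X _ _⟩
      rw [MvPolynomial.coeff_X]
      split_ifs
      · exact h1
      · exact Submodule.zero_mem _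
  | zero =>
    refine ⟨0, ⟨by rw [MvPolynomial.totalDegree_zero]; exact Nat.zero_le _, fun s => ?_⟩, map_zero _⟩
    rw [MvPolynomial.coeff_zero]
    exact Submodule.zero_mem _
  | add x y _ _ hx hy =>
    obtain ⟨L, hL, hLx⟩ := hx
    obtain ⟨L', hL', hLy⟩ := hy
    refine ⟨L + L', ⟨(MvPolynomial.totalDegree_add _ _).trans (max_le hL.1 hL'.1), fun s => ?_⟩, by
      rw [map_add, hLx, hLy]⟩
    rw [MvPolynomial.coeff_add]
    exact Submodule.add_mem _ (hL.2 s) (hL'.2 s)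
  | smul a x _ hx =>
    obtain ⟨L, hL, hLx⟩ := hx
    refine ⟨a • L, ⟨(MvPolynomial.totalDegree_smul_le _ _).trans hL.1, fun s => ?_⟩, ?_⟩
    · rw [MvPolynomial.coeff_smul]
      exact Submodule.smul_mem _ _ (hL.2 s)
    · rw [map_rat_smul, hLx]

end lin

section win

variable {r k : ℕ} {n : Fin r → ℕ} {Q : Fin r → Polynomial ℚ} {W : ∀ j, Matrix (Fin (n j)) (Fin (n j)) (PowerSeries ℚ)}

/-- the generic matrix -/
noncomputable def PhiW (n : Fin r → ℕ) (k : ℕ) {r₀ q : ℕ}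
    (L : Fin r₀ → Fin r₀ → MvPolynomial ((Σ j : Fin r, Fin (n j) × Fin (n j)) ⊕ Fin q) ℂ)
    (p : IG (Fin r₀) (nb n k) × IG (Fin r₀) (nb n k)) :
    MvPolynomial (((Σ j : Fin r, Fin (n j) × Fin (n j)) ⊕ Fin q) ⊕ Cj n k) ℂ :=
  (fromBlocks (Matrix.of fun a b => MvPolynomial.rename Sum.inl (L a b)) 0 0
    (blockDiagonal' fun q' => Matrix.of fun a b => MvPolynomial.X (Sum.inr (tau n k ⟨q', (a, b)⟩))) :
    Matrix (IG (Fin r₀) (nb n k)) (IG (Fin r₀) (nb n k))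
      (MvPolynomial (((Σ j : Fin r, Fin (n j) × Fin (n j)) ⊕ Fin q) ⊕ Cj n k) ℂ)) p.1 p.2

lemma one_mem_one : (1 : ℂ) ∈ (1 : Submodule ℚ ℂ) := Submodule.one_le.1 le_rfl

lemma dc_zero {σ : Type} : DC 1 (1 : Submodule ℚ ℂ) (0 : MvPolynomial σ ℂ) :=
  ⟨by rw [MvPolynomial.totalDegree_zero]; exact Nat.zero_le _, fun s => by
    rw [MvPolynomial.coeff_zero]
    exact Submodule.zero_mem _⟩

lemma dc_X {σ : Type} (i : σ) : DC 1 (1 : Submodule ℚ ℂ) (MvPolynomial.X i : MvPolynomial σ ℂ) := by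
  classical
  refine ⟨(MvPolynomial.totalDegree_X (R := ℂ) i).le, fun s => ?_⟩
  rw [MvPolynomial.coeff_X]
  split_ifs
  · exact one_mem_one
  · exact Submodule.zero_mem _

theorem PhiW_DC {r₀ q : ℕ}
    {L : Fin r₀ → Fin r₀ → MvPolynomial ((Σ j : Fin r, Fin (n j) × Fin (n j)) ⊕ Fin q) ℂ} (hL : ∀ a b, DC 1 (1 : Submodule ℚ ℂ) (L a b)) :
    ∀ b, DC 1 (1 : Submodule ℚ ℂ) (PhiW n k L b) := by
  rintro ⟨a | ⟨i, a⟩, b | ⟨j, b⟩⟩
  · exact ⟨(MvPolynomial.totalDegree_rename_le _ _).trans (hL a b).1, fun s => coeff_rn _ _ _ (hL a b).2 s⟩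
  · exact dc_zero
  · exact dc_zero
  · show DC 1 (1 : Submodule ℚ ℂ) ((blockDiagonal' fun q' => Matrix.of fun a b =>
      (MvPolynomial.X (Sum.inr (tau n k ⟨q', (a, b)⟩)) :
        MvPolynomial (((Σ j : Fin r, Fin (n j) × Fin (n j)) ⊕ Fin q) ⊕ Cj n k) ℂ)) ⟨i, a⟩ ⟨j, b⟩)
    by_cases h : i = j
    · subst h
      rw [blockDiagonal'_apply_eq]
      exact dc_X _
    · rw [blockDiagonal'_apply_ne _ _ _ h]
      exact dc_zero

theorem PhiW_eval {r₀ q : ℕ}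
    {L : Fin r₀ → Fin r₀ → MvPolynomial ((Σ j : Fin r, Fin (n j) × Fin (n j)) ⊕ Fin q) ℂ}
    {C₀ : Matrix (Fin r₀) (Fin r₀) ℂ} {v : (Σ j : Fin r, Fin (n j) × Fin (n j)) ⊕ Fin q → ℂ}
    (hL : ∀ a b, MvPolynomial.aeval v (L a b) = C₀ a b) (l : Fin k → ℂ)
    {Y : Fin k → ∀ j, Matrix (Fin (n j)) (Fin (n j)) ℂ} {X : ∀ q', Matrix (Fin (nb n k q')) (Fin (nb n k q')) ℂ}
    (hX : ∀ (q' : Fin (k * r)) a b, X q' a b = Y q'.divNat q'.modNat b a)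
    (b : IG (Fin r₀) (nb n k) × IG (Fin r₀) (nb n k)) :
    fl (EG C₀ X) b = MvPolynomial.aeval (Sum.elim v (pjc l Y)) (PhiW n k L b) := by
  obtain ⟨a | ⟨i, a⟩, b | ⟨j, b⟩⟩ := b
  · show C₀ a b = MvPolynomial.aeval (Sum.elim v (pjc l Y))
      (MvPolynomial.rename Sum.inl (L a b))
    rw [MvPolynomial.aeval_rename]
    exact (hL a b).symm
  · show (0 : ℂ) = MvPolynomial.aeval _ 0
    rw [map_zero]
  · show (0 : ℂ) = MvPolynomial.aeval _ 0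
    rw [map_zero]
  · show blockDiagonal' X ⟨i, a⟩ ⟨j, b⟩ =
      MvPolynomial.aeval (Sum.elim v (pjc l Y)) ((blockDiagonal' fun q' => Matrix.of fun a b =>
      (MvPolynomial.X (Sum.inr (tau n k ⟨q', (a, b)⟩)) :
        MvPolynomial (((Σ j : Fin r, Fin (n j) × Fin (n j)) ⊕ Fin q) ⊕ Cj n k) ℂ)) ⟨i, a⟩ ⟨j, b⟩)
    by_cases h : i = j
    · subst h
      rw [blockDiagonal'_apply_eq, blockDiagonal'_apply_eq, Matrix.of_apply, MvPolynomial.aeval_X]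
      exact hX i a b
    · rw [blockDiagonal'_apply_ne _ _ _ h, blockDiagonal'_apply_ne _ _ _ h, map_zero]

/-- polynomials with rational coefficients -/
lemma exists_bot {σ : Type} {P : MvPolynomial σ ℂ} (h : ∀ s, P.coeff s ∈ (1 : Submodule ℚ ℂ)) :
    ∃ P₀ : MvPolynomial σ (⊥ : IntermediateField ℚ ℂ), MvPolynomial.map (algebraMap (⊥ : IntermediateField ℚ ℂ) ℂ) P₀ = P := by
  have h1 : P ∈ Set.range (MvPolynomial.map (σ := σ) (algebraMap (⊥ : IntermediateField ℚ ℂ) ℂ)) := by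
    rw [MvPolynomial.mem_range_map_iff_coeffs_subset]
    intro z hz
    rw [Finset.mem_coe, MvPolynomial.mem_coeffs_iff] at hz
    obtain ⟨m, -, rfl⟩ := hz
    obtain ⟨y, hy⟩ := Submodule.mem_one.1 (h m)
    refine ⟨algebraMap ℚ (⊥ : IntermediateField ℚ ℂ) y, ?_⟩
    rw [← hy]
    rfl
  exact h1

/-- **windows** -/
theorem sub_win (hJ : JU n Q W) : ∃ G0 : ℕ, 1 ≤ G0 ∧ ∀ G : ℕ, G0 ≤ G →
    ∀ (Ω : ∀ j, Matrix (Fin (n j)) (Fin (n j)) ℂ) (q k m D A r₀ : ℕ), ∃ Ex : ℕ,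
    ∀ (M : ℕ) (ξ : ℂ), ((M : ℝ) + 2) ^ Ex ≤ ‖ξ‖ → Pool.Agent.Y916.Al.Ht m A ξ → ∀ w : Fin q → ℂ, ∃ S : Finset ℕ,
    (S.card : Cardinal) ≤ Algebra.trdeg ℚ (IntermediateField.adjoin ℚ (insert (2 * Real.pi * Complex.I)
      (Set.range fun p : Σ j : Fin r, Fin (n j) × Fin (n j) => Ω p.1 p.2.1 p.2.2))) + q + 1 ∧
    ∀ u : Fin k → ℕ, Function.Injective u → (∀ j, 1 ≤ u j ∧ u j ≤ M ∧ u j ∉ S) →
      (∀ j, 1 < ‖ξ - ((G * u j : ℕ) : ℂ)‖) ∧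
      ∀ C₀ : Matrix (Fin r₀) (Fin r₀) ℂ, (∀ a b, C₀ a b ∈ Submodule.span ℚ (insert 1 (Set.range (cs Ω w)))) →
        GoodS D C₀ Q (fun _ => Ω) (fun i => ξ - ((G * u i : ℕ) : ℂ)) := by
  classical
  obtain ⟨G0, hG0, h⟩ := win_joint (tg hJ) p_GFS p_WINA hJ
  refine ⟨G0, hG0, fun G hG Ω q k m D A r₀ => ?_⟩
  obtain ⟨d, hd⟩ := stabH (r₀ + ∑ q, nb n k q) D
  obtain ⟨Ex, h⟩ := h G hG Ω q k m 1 d A
  refine ⟨Ex, fun M ξ hξ hht w => ?_⟩
  obtain ⟨S, hS, h⟩ := h M ξ hξ hht w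
  refine ⟨S, hS, fun u hu hub => ?_⟩
  obtain ⟨h3, h4⟩ := h u hu hub
  refine ⟨h3, fun C₀ hC₀ ℓ hℓ K hKf hKD T hT hcT => ?_⟩
  choose L hL1 hL2 using fun a b => lin_poly (hC₀ a b)
  have hun : ∀ q' : Fin (k * r), IsUnit (Ω q'.modNat) := by
    intro q'
    have h5 := EG_block_unit (hT.isUnit _ hcT) q'
    unfold Pm at h5
    rw [Matrix.isUnit_iff_isUnit_det, det_transpose, det_mul] at h5
    exact (Matrix.isUnit_iff_isUnit_det _).2 (isUnit_of_mul_isUnit_right h5)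
  refine ⟨hun, ?_⟩
  have hmem : ∀ i j, Hf (Hc (n j) (Q j)) (1 / (ξ - ((G * u i : ℕ) : ℂ))) * E (cm (Am (n j))) (-ℓ i) ∈
      TU (n j) (Q j) (Complex.log (1 - 1 / (ξ - ((G * u i : ℕ) : ℂ)))) (1 / (ξ - ((G * u i : ℕ) : ℂ))) := by
    intro i j
    refine mem_TU (hJ.q j) ?_ _
    rw [norm_div, norm_one, div_lt_one (by linarith [h3 i])]
    exact h3 i
  have hRl : ∀ g : ∀ q', (Matrix (Fin (nb n k q')) (Fin (nb n k q')) ℂ)ˣ,
      (∀ q', g q' ∈ GB (bf Q (fun _ : Fin k => Ω) q')) →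
      Rl ⊥ d (EG C₀ (Pm Q (fun _ : Fin k => Ω) (fun i => ξ - ((G * u i : ℕ) : ℂ)) ℓ))
        (EG 1 (fun q' => (g q' : Matrix (Fin (nb n k q')) (Fin (nb n k q')) ℂ)) *
          EG C₀ (Pm Q (fun _ : Fin k => Ω) (fun i => ξ - ((G * u i : ℕ) : ℂ)) ℓ)) := by
    intro g hg
    have hX : ∀ q' : Fin (k * r), ∃ X : Matrix (Fin (n q'.modNat)) (Fin (n q'.modNat)) ℂ,
        X ∈ TU (n q'.modNat) (Q q'.modNat) (Complex.log (1 - 1 / (ξ - ((G * u q'.divNat : ℕ) : ℂ))))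
          (1 / (ξ - ((G * u q'.divNat : ℕ) : ℂ))) ∧
        (X * Ω q'.modNat)ᵀ = (g q' : Matrix (Fin (nb n k q')) (Fin (nb n k q')) ℂ) *
          Pm Q (fun _ : Fin k => Ω) (fun i => ξ - ((G * u i : ℕ) : ℂ)) ℓ q' := by
      intro q'
      obtain ⟨X, hX1, hX2⟩ := TU_act (hmem q'.divNat q'.modNat) (hun q') (hg q')
      exact ⟨X, hX1, hX2⟩
    choose X' hX1 hX2 using hX
    obtain ⟨X, hX⟩ := exists_pairs (A := fun p : Fin k × Fin r => Matrix (Fin (n p.2)) (Fin (n p.2)) ℂ) X'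
    have hXm : ∀ i j, X (i, j) ∈ TU (n j) (Q j) (Complex.log (1 - 1 / (ξ - ((G * u i : ℕ) : ℂ))))
        (1 / (ξ - ((G * u i : ℕ) : ℂ))) := by
      intro i j
      have h5 : ∀ p : Fin k × Fin r, X p ∈ TU (n p.2) (Q p.2) (Complex.log (1 - 1 / (ξ - ((G * u p.1 : ℕ) : ℂ))))
          (1 / (ξ - ((G * u p.1 : ℕ) : ℂ))) := by
        intro p
        obtain ⟨q', rfl⟩ := dm_surj p
        rw [hX q']
        exact hX1 q'
      exact h5 (i, j)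
    refine Rl_of (W := (1 : Submodule ℚ ℂ)) (Φ := PhiW n k L)
      (y := Sum.elim (cs Ω w) (pjc ℓ fun i j => Hf (Hc (n j) (Q j)) (1 / (ξ - ((G * u i : ℕ) : ℂ))) *
        E (cm (Am (n j))) (-ℓ i) * Ω j))
      (y' := Sum.elim (cs Ω w) (pjc ℓ fun i j => X (i, j) * Ω j)) ?_ (PhiW_DC hL1) ?_ ?_ ?_
    · intro a ha
      rw [Subfield.bot_eq_of_charZero] at ha
      obtain ⟨x, hx⟩ := ha
      exact Submodule.mem_one.2 ⟨x, hx⟩
    · intro F hFd hFV hF0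
      rw [one_pow] at hFV
      obtain ⟨F₀, rfl⟩ := exists_bot hFV
      rw [MvPolynomial.aeval_map_algebraMap] at hF0 ⊢
      refine h4 ℓ hℓ ⊥ inferInstance (by rw [IntermediateField.finrank_bot]) F₀ ?_ hF0 ℓ (fun i j => X (i, j)) hXm
      refine le_trans (Finset.sup_mono ?_) hFd
      intro s hs
      rw [MvPolynomial.mem_support_iff] at hs ⊢
      rw [MvPolynomial.coeff_map]
      intro h5
      exact hs ((map_eq_zero _).1 h5)
    · intro b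
      exact PhiW_eval (X := Pm Q (fun _ : Fin k => Ω) (fun i => ξ - ((G * u i : ℕ) : ℂ)) ℓ)
        (Y := fun i j => Hf (Hc (n j) (Q j)) (1 / (ξ - ((G * u i : ℕ) : ℂ))) * E (cm (Am (n j))) (-ℓ i) * Ω j)
        hL2 ℓ (fun q' a b => rfl) b
    · intro b
      rw [EG_mul, Matrix.one_mul]
      refine PhiW_eval (Y := fun i j => X (i, j) * Ω j) hL2 ℓ (fun q' a b => ?_) b
      show _ = (X (q'.divNat, q'.modNat) * Ω q'.modNat) b a
      rw [← hX2 q', hX q']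
      rfl
  intro g hg
  exact hd r₀ (k * r) (nb n k) le_rfl C₀ _ (fun q' => bf Q (fun _ : Fin k => Ω) q') (fun q' => fm_Clf (hun q')) hRl K hKf
    hKD T hT hcT g hg

end win

end Run7.h309.ST
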